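import Pool.Agent.Q167.SL.StmD
import Pool.Agent.TH41.KL.FT

/-!
# Project SL2: linearity of the pairing
-/

set_option autoImplicit false

open MeasureTheory Filter Topology

namespace Pool.Agent.Q119.SL

open Pool.Agent.Q167.SL
open Pool.Agent.TH41.KL (PD cosA)

theorem isOpen_shell (n : ℕ) (r : ℝ) : IsOpen (shell n r) := by
  have h1 : IsOpen {x : EuclideanSpace ℝ (Fin n) | r < ‖x‖} :=
    isOpen_lt continuous_const continuous_norm
  have h2 : IsOpen {x : EuclideanSpace ℝ (Fin n) | ‖x‖ < 1} :=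
    isOpen_lt continuous_norm continuous_const
  exact h1.inter h2

theorem meas_shell (n : ℕ) (r : ℝ) : MeasurableSet (shell n r) := (isOpen_shell n r).measurableSet

theorem vol_shell_lt (n : ℕ) (r : ℝ) : volume (shell n r) < ⊤ := by
  refine lt_of_le_of_lt (measure_mono ?_) (measure_ball_lt_top (x := (0 : EuclideanSpace ℝ (Fin n)))
    (r := 1))
  intro x hx
  simpa using hx.2

instance fin_shell (n : ℕ) (r : ℝ) : IsFiniteMeasure (volume.restrict (shell n r)) :=
  ⟨by rw [Measure.restrict_apply_univ]; exact vol_shell_lt n r⟩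

theorem meas_g {n : ℕ} {g : ℝ → ℝ} (hg : ContinuousOn g (Set.Icc (-1) 1)) :
    Measurable fun z : EuclideanSpace ℝ (Fin n) × EuclideanSpace ℝ (Fin n) => g (cosA z.1 z.2) := by
  obtain ⟨G, K, hG, hGg, _, _⟩ := Pool.Agent.TH41.KL.FTf.exists_ext g hg
  have h3 : (fun z : EuclideanSpace ℝ (Fin n) × EuclideanSpace ℝ (Fin n) => g (cosA z.1 z.2)) =
      fun z => G (cosA z.1 z.2) := by
    funext z
    have h := abs_le.1 (Pool.Agent.TH41.KL.FTf.abs_cosA_le z.1 z.2)
    exact (hGg _ h.1 h.2).symm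
  rw [h3]
  exact hG.measurable.comp Pool.Agent.TH41.KL.FTf.measurable_cosA

theorem bdd_g {g : ℝ → ℝ} (hg : ContinuousOn g (Set.Icc (-1) 1)) :
    ∃ K : ℝ, 0 ≤ K ∧ ∀ (n : ℕ) (x y : EuclideanSpace ℝ (Fin n)), |g (cosA x y)| ≤ K := by
  obtain ⟨G, K, _, hGg, hK, hK0⟩ := Pool.Agent.TH41.KL.FTf.exists_ext g hg
  refine ⟨K, hK0, fun n x y => ?_⟩
  have h := abs_le.1 (Pool.Agent.TH41.KL.FTf.abs_cosA_le x y)
  rw [← hGg _ h.1 h.2]
  exact hK _

/-- the kernel of the pairing -/
noncomputable def kr {n : ℕ} (g : ℝ → ℝ) (u : ℝ → ℂ)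
    (z : EuclideanSpace ℝ (Fin n) × EuclideanSpace ℝ (Fin n)) : ℂ :=
  ((g (cosA z.1 z.2) : ℝ) : ℂ) * u (inner ℝ z.1 z.2)

theorem int_kr {n : ℕ} {r : ℝ} {g : ℝ → ℝ} {u : ℝ → ℂ} (hg : ContinuousOn g (Set.Icc (-1) 1))
    (hu : Continuous u) : Integrable (kr g u)
      ((volume.restrict (shell n r)).prod (volume.restrict (shell n r))) := by
  obtain ⟨K, hK0, hK⟩ := bdd_g hg
  obtain ⟨M, hM⟩ := (isCompact_Icc (a := (-1 : ℝ)) (b := 1)).exists_bound_of_continuousOn
    hu.continuousOn
  have hmeas : Measurable (kr (n := n) g u) := by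
    unfold kr
    refine (Complex.measurable_ofReal.comp (meas_g hg)).mul ?_
    exact hu.measurable.comp (Measurable.inner measurable_fst measurable_snd)
  refine Integrable.of_bound hmeas.aestronglyMeasurable (K * M) ?_
  have hms : MeasurableSet (shell n r ×ˢ shell n r) := (meas_shell n r).prod (meas_shell n r)
  rw [Measure.prod_restrict]
  filter_upwards [ae_restrict_mem hms] with z hz
  have h1 : |inner ℝ z.1 z.2| ≤ 1 := by
    refine (abs_real_inner_le_norm _ _).trans ?_
    have h2 : ‖z.1‖ < 1 := hz.1.2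
    have h3 : ‖z.2‖ < 1 := hz.2.2
    nlinarith [norm_nonneg z.1, norm_nonneg z.2]
  have h2 := hM _ (abs_le.1 h1)
  unfold kr
  rw [norm_mul, Complex.norm_real, Real.norm_eq_abs]
  exact mul_le_mul (hK n z.1 z.2) h2 (norm_nonneg _) hK0

theorem pr_eq {n : ℕ} {r : ℝ} {g : ℝ → ℝ} {u : ℝ → ℂ} (hg : ContinuousOn g (Set.Icc (-1) 1))
    (hu : Continuous u) : pr n r g u =
      ∫ z, kr g u z ∂((volume.restrict (shell n r)).prod (volume.restrict (shell n r))) := by
  rw [integral_prod _ (int_kr hg hu)]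
  rfl

theorem one_nonneg {n : ℕ} (hn : 0 < n) {g : ℝ → ℝ} (hg : PD n g) : 0 ≤ g 1 := by
  have h := hg 1 (fun _ => EuclideanSpace.single ⟨0, hn⟩ 1) (fun _ => 1) (fun _ => by simp)
  simpa using h

theorem lin : S_lin := by
  intro n r hn hr hr1
  refine ⟨?_, ?_, ?_, ?_⟩
  · intro u w D D' hu hw h1 h2 g hg hpd
    have e : pr n r g (fun τ => u τ + w τ) = pr n r g u + pr n r g w := by
      rw [pr_eq hg hu, pr_eq hg hw, pr_eq (u := fun τ => u τ + w τ) hg (hu.add hw),
        ← integral_add (int_kr hg hu) (int_kr hg hw)]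
      apply integral_congr_ae
      refine Eventually.of_forall fun z => ?_
      simp only [kr]
      ring
    rw [e]
    calc ‖pr n r g u + pr n r g w‖ ≤ ‖pr n r g u‖ + ‖pr n r g w‖ := norm_add_le _ _
      _ ≤ D * g 1 * vs n r ^ 2 + D' * g 1 * vs n r ^ 2 := add_le_add (h1 g hg hpd) (h2 g hg hpd)
      _ = (D + D') * g 1 * vs n r ^ 2 := by ring
  · intro u D c h1 g hg hpd
    have e : pr n r g (fun τ => c * u τ) = c * pr n r g u := by
      unfold pr
      rw [← integral_const_mul]
      congr 1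
      funext x
      rw [← integral_const_mul]
      congr 1
      funext y
      ring
    rw [e, norm_mul]
    calc ‖c‖ * ‖pr n r g u‖ ≤ ‖c‖ * (D * g 1 * vs n r ^ 2) := by
          gcongr
          exact h1 g hg hpd
      _ = ‖c‖ * D * g 1 * vs n r ^ 2 := by ring
  · intro u D hu h1 g hg hpd
    have hre : Continuous fun τ => (((u τ).re : ℝ) : ℂ) :=
      Complex.continuous_ofReal.comp (Complex.continuous_re.comp hu)
    have e : pr n r g (fun τ => (((u τ).re : ℝ) : ℂ)) = ((pr n r g u).re : ℂ) := by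
      rw [pr_eq hg hu, pr_eq hg hre]
      have h3 := integral_re (int_kr (n := n) (r := r) hg hu)
      have h4 : (∫ z, kr g u z ∂((volume.restrict (shell n r)).prod
          (volume.restrict (shell n r)))).re = ∫ z, (kr g u z).re
          ∂((volume.restrict (shell n r)).prod (volume.restrict (shell n r))) := h3.symm
      rw [h4, ← integral_complex_ofReal]
      apply integral_congr_ae
      refine Eventually.of_forall fun z => ?_
      simp only [kr, Complex.re_ofReal_mul, Complex.ofReal_mul]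
    rw [e, Complex.norm_real]
    exact (Complex.abs_re_le_norm _).trans (h1 g hg hpd)
  · intro u D D' hD h1 g hg hpd
    refine (h1 g hg hpd).trans ?_
    have := one_nonneg hn hpd
    gcongr

end Pool.Agent.Q119.SL
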