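import Pool.Agent.Q167.SL.StmB
import Pool.Agent.Q119.SL.Lin

/-!
# Project SL2: the dual size of the exponentials
-/

set_option autoImplicit false

open MeasureTheory Filter Topology

namespace Pool.Agent.Q119.SL

open Pool.Agent.Q167.SL
open Pool.Agent.TH41.KL (PD cosA)

theorem expk (hexp : S_exp) (hvol : S_vol) : S_expk := by
  intro r ε hr hr1 hε
  obtain ⟨n₀, hn₀⟩ := hvol r ε hr hr1 hε
  refine ⟨max n₀ 1, fun n hn σ hσ g hg hpd => ?_⟩
  have hn1 : n₀ ≤ n := (le_max_left _ _).trans hn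
  have hn2 : 0 < n := (le_max_right _ _).trans hn
  obtain ⟨hvs, hv⟩ := hn₀ n hn1
  have h1 := hexp n r hn2 hr hr1 σ hσ g hg hpd
  have hg1 := one_nonneg hn2 hpd
  have hσ0 : 0 < ‖σ‖ := norm_pos_iff.2 hσ
  have hnr : (0 : ℝ) < n := by exact_mod_cast hn2
  rw [div_le_iff₀ hvs] at hv
  have h2 : (2 * Real.pi / (n * ‖σ‖)) ^ ((n : ℝ) / 2) =
      (2 * Real.pi / n) ^ ((n : ℝ) / 2) * Real.exp (-(n / 2 * Real.log ‖σ‖)) := by
    have e1 : (2 * Real.pi / (n * ‖σ‖) : ℝ) = (2 * Real.pi / n) * ‖σ‖⁻¹ := by field_simp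
    rw [e1, Real.mul_rpow (by positivity) (by positivity), Real.rpow_def_of_pos (by positivity :
      (0 : ℝ) < ‖σ‖⁻¹), Real.log_inv]
    congr 2
    ring
  refine h1.trans ?_
  rw [h2]
  calc (2 * Real.pi / n) ^ ((n : ℝ) / 2) * Real.exp (-(n / 2 * Real.log ‖σ‖)) *
        Real.exp (n * |σ.re|) * g 1 * vs n r
      ≤ (Real.exp (n * (-(1 / 2) + ε)) * vs n r) * Real.exp (-(n / 2 * Real.log ‖σ‖)) *
        Real.exp (n * |σ.re|) * g 1 * vs n r := by gcongr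
    _ = (Real.exp (n * (-(1 / 2) + ε)) * Real.exp (-(n / 2 * Real.log ‖σ‖)) *
        Real.exp (n * |σ.re|)) * g 1 * vs n r ^ 2 := by ring
    _ = Real.exp (n * (|σ.re| - 1 / 2 * Real.log ‖σ‖ - 1 / 2 + ε)) * g 1 * vs n r ^ 2 := by
        rw [← Real.exp_add, ← Real.exp_add]
        congr 3
        ring

end Pool.Agent.Q119.SL
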