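import Pool.Agent.Q167.SL.StmD

/-!
# Project SL2: every frequency is a frequency of some kernel with a small threshold
-/

set_option autoImplicit false

open MeasureTheory Filter Topology

namespace Pool.Agent.Q119.SL

open Pool.Agent.Q167.SL

theorem fc : S_fc := by
  intro hk1 hk4 hk5 η ξ hη
  obtain ⟨hd, hsym, _, _, _, _, _, _, htt0, hoS, heS⟩ := hk1 η hη
  -- the threshold
  set t₀ := (tt η 0).re with ht₀
  have ht0 : 0 < t₀ := by
    rw [ht₀, htt0, Complex.ofReal_re]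
    positivity
  set t := min t₀ (1 / 2) with ht
  have htp : 0 < t := lt_min ht0 (by norm_num)
  have ht1 : t ≤ 1 / 2 := min_le_right _ _
  set φ₁ := Real.arccos t with hφ₁
  have hcos : Real.cos φ₁ = t := Real.cos_arccos (by linarith) (by linarith)
  have hφpos : 0 < φ₁ := Real.arccos_pos.2 (by linarith)
  have hφlt : φ₁ < Real.pi / 2 := Real.arccos_lt_pi_div_two.2 htp
  have hcos0 : Real.cos φ₁ ≤ t₀ := by rw [hcos]; exact min_le_left _ _
  have hmul : ∀ φ : ℝ, ((-φ : ℝ) : ℂ) * Complex.I = -((φ : ℂ) * Complex.I) := by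
    intro φ; push_cast; ring
  by_cases hcase : |ξ| ≤ (sg η (φ₁ * Complex.I)).im
  · -- same kernel
    have hcont : Continuous fun φ : ℝ => (sg η ((φ : ℂ) * Complex.I)).im := by
      rw [continuous_iff_continuousAt]
      intro φ
      have h1 : ContinuousAt (sg η) ((φ : ℂ) * Complex.I) :=
        (hd _ (by simpa using hη)).1.continuousAt
      have h2 : ContinuousAt (fun φ : ℝ => (φ : ℂ) * Complex.I) φ := by fun_prop
      exact Complex.continuous_im.continuousAt.comp
        (ContinuousAt.comp (f := fun φ : ℝ => (φ : ℂ) * Complex.I) (g := sg η) h1 h2)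
    have hneg : (sg η (((-φ₁ : ℝ) : ℂ) * Complex.I)).im = -(sg η (φ₁ * Complex.I)).im := by
      rw [hmul, (hsym _).1, Complex.neg_im]
    have hle : -φ₁ ≤ φ₁ := by linarith
    have hiv := intermediate_value_Icc hle hcont.continuousOn
    have hmem : ξ ∈ Set.Icc ((sg η (((-φ₁ : ℝ) : ℂ) * Complex.I)).im)
        ((sg η (φ₁ * Complex.I)).im) := by
      rw [hneg]
      exact ⟨by linarith [neg_abs_le ξ], (le_abs_self ξ).trans hcase⟩
    obtain ⟨φ, hφ, hφξ⟩ := hiv hmem
    have habs : |φ| ≤ φ₁ := abs_le.2 hφ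
    refine ⟨η, φ, hη, le_refl _, lt_of_le_of_lt habs hφlt, hφξ, ?_⟩
    exact (hk4 η φ hη (habs.trans hφlt.le)).1
  · push Not at hcase
    obtain ⟨hcont, hbig⟩ := hk5 φ₁ hφpos (by linarith [Real.pi_pos])
    obtain ⟨η₁, hη₁, hη₁η, hB⟩ := hbig |ξ| η hη
    have hc : ContinuousOn (fun η : ℝ => (sg η (φ₁ * Complex.I)).im) (Set.Icc η₁ η) :=
      hcont.mono fun x hx => lt_of_lt_of_le hη₁ hx.1
    have hiv := intermediate_value_Icc' hη₁η hc
    obtain ⟨η', hη', hval⟩ := hiv ⟨hcase.le, hB⟩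
    have hη'0 : 0 < η' := lt_of_lt_of_le hη₁ hη'.1
    obtain ⟨_, hsym', _⟩ := hk1 η' hη'0
    have hk := hk4 η' φ₁ hη'0 (by rw [abs_of_pos hφpos]; exact hφlt.le)
    rcases le_total 0 ξ with h0 | h0
    · refine ⟨η', φ₁, hη'0, hη'.2, by rw [abs_of_pos hφpos]; exact hφlt, ?_, hk.2.1.trans hcos0⟩
      have : (sg η' (φ₁ * Complex.I)).im = |ξ| := hval
      rw [this, abs_of_nonneg h0]
    · refine ⟨η', -φ₁, hη'0, hη'.2, by rw [abs_neg, abs_of_pos hφpos]; exact hφlt, ?_, ?_⟩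
      · have : (sg η' (φ₁ * Complex.I)).im = |ξ| := hval
        rw [hmul, (hsym' _).1, Complex.neg_im, this, abs_of_nonpos h0, neg_neg]
      · rw [hmul, (hsym' _).2]
        exact hk.2.1.trans hcos0

end Pool.Agent.Q119.SL
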