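import Pool.Agent.Q167.SL.StmA
import Pool.Agent.TH41.LP.VOL

/-!
# Project SL2: volume of the shell
-/

set_option autoImplicit false

open MeasureTheory Filter Topology

namespace Pool.Agent.Q119.SL

open Pool.Agent.Q167.SL

theorem vs_eq (n : ℕ) (hn : 0 < n) (r : ℝ) (hr : 0 ≤ r) (hr1 : r < 1) :
    vs n r = (1 - r ^ n) * (√Real.pi ^ n / Real.Gamma ((n : ℝ) / 2 + 1)) := by
  have : Nonempty (Fin n) := ⟨⟨0, hn⟩⟩
  have h1 : shell n r = Metric.ball (0 : EuclideanSpace ℝ (Fin n)) 1 \ Metric.closedBall 0 r := by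
    ext x
    simp only [shell, Set.mem_ofPred_eq, Set.mem_sdiff, Metric.mem_ball, Metric.mem_closedBall,
      dist_zero_right, not_le]
    tauto
  have hsub : Metric.closedBall (0 : EuclideanSpace ℝ (Fin n)) r ⊆ Metric.ball 0 1 :=
    Metric.closedBall_subset_ball hr1
  have hfin : volume (Metric.closedBall (0 : EuclideanSpace ℝ (Fin n)) r) ≠ ⊤ :=
    (measure_closedBall_lt_top).ne
  have hfin1 : volume (Metric.ball (0 : EuclideanSpace ℝ (Fin n)) 1) ≠ ⊤ :=
    (measure_ball_lt_top).ne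
  rw [vs, h1, measure_sdiff hsub Metric.isClosed_closedBall.measurableSet.nullMeasurableSet hfin,
    ENNReal.toReal_sub_of_le (measure_mono hsub) hfin1]
  rw [EuclideanSpace.volume_ball, EuclideanSpace.volume_closedBall, Fintype.card_fin,
    ENNReal.toReal_mul, ENNReal.toReal_mul, ENNReal.toReal_pow, ENNReal.toReal_pow,
    ENNReal.toReal_ofReal hr, ENNReal.toReal_ofReal (by norm_num), ENNReal.toReal_ofReal (by positivity)]
  ring

theorem vol : S_vol := by
  intro r ε hr hr1 hε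
  have ha1 : Real.exp (-ε) < 1 := by
    rw [Real.exp_lt_one_iff]
    linarith
  set K : ℝ := 1 / ((1 - Real.exp (-ε)) * (1 - r)) with hK
  have hK0 : 0 < (1 - Real.exp (-ε)) * (1 - r) := mul_pos (by linarith) (by linarith)
  obtain ⟨n₀, hn₀⟩ := exists_nat_gt (2 * K / ε)
  refine ⟨n₀ + 1, fun n hn => ?_⟩
  have hn0 : 0 < n := by omega
  have hnr : (0 : ℝ) < n := by exact_mod_cast hn0
  have hG : 0 < Real.Gamma ((n : ℝ) / 2 + 1) := Real.Gamma_pos_of_pos (by positivity)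
  have hrn : r ^ n ≤ r := by
    calc r ^ n ≤ r ^ 1 := pow_le_pow_of_le_one hr hr1.le hn0
      _ = r := pow_one r
  have hrn1 : 1 - r ≤ 1 - r ^ n := by linarith
  have hrn0 : 0 < 1 - r ^ n := by linarith
  have hvs := vs_eq n hn0 r hr hr1
  have hpos : 0 < vs n r := by
    rw [hvs]; positivity
  refine ⟨hpos, ?_⟩
  have hx : (0 : ℝ) < (n : ℝ) / 2 := by positivity
  have hgu := Pool.Agent.TH41.LP.VOLf.gamma_upper hx hε
  -- exact form
  have h1 : (2 * Real.pi / n) ^ ((n : ℝ) / 2) =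
      √Real.pi ^ n * Real.exp (-((n : ℝ) / 2 * Real.log ((n : ℝ) / 2))) := by
    have e1 : (2 * Real.pi / n : ℝ) = Real.pi * ((n : ℝ) / 2)⁻¹ := by field_simp
    rw [e1, Real.mul_rpow Real.pi_pos.le (by positivity), Real.rpow_def_of_pos (by positivity :
      (0 : ℝ) < ((n : ℝ) / 2)⁻¹), Real.log_inv]
    congr 1
    · rw [Real.sqrt_eq_rpow, ← Real.rpow_natCast, ← Real.rpow_mul Real.pi_pos.le]
      congr 1; ring
    · congr 1; ring
  have h2 : (2 * Real.pi / n) ^ ((n : ℝ) / 2) / vs n r =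
      Real.exp (-((n : ℝ) / 2 * Real.log ((n : ℝ) / 2))) * Real.Gamma ((n : ℝ) / 2 + 1) /
        (1 - r ^ n) := by
    rw [h1, hvs]
    have : (0 : ℝ) < √Real.pi ^ n := by positivity
    field_simp
  rw [h2, div_le_iff₀ hrn0]
  have h3 : Real.exp (-((n : ℝ) / 2 * Real.log ((n : ℝ) / 2))) * Real.Gamma ((n : ℝ) / 2 + 1) *
      (1 - Real.exp (-ε)) ≤ Real.exp (n * (-(1 / 2)) + n * ε / 2) := by
    calc Real.exp (-((n : ℝ) / 2 * Real.log ((n : ℝ) / 2))) * Real.Gamma ((n : ℝ) / 2 + 1) *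
        (1 - Real.exp (-ε)) =
        Real.exp (-((n : ℝ) / 2 * Real.log ((n : ℝ) / 2))) * (Real.Gamma ((n : ℝ) / 2 + 1) *
        (1 - Real.exp (-ε))) := by ring
      _ ≤ Real.exp (-((n : ℝ) / 2 * Real.log ((n : ℝ) / 2))) *
          Real.exp ((n : ℝ) / 2 * Real.log ((n : ℝ) / 2) - (n : ℝ) / 2 + ε * ((n : ℝ) / 2)) := by
          gcongr
      _ = Real.exp (n * (-(1 / 2)) + n * ε / 2) := by
          rw [← Real.exp_add]; congr 1; ring
  have h4 : K ≤ Real.exp (n * ε / 2) := by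
    have h5 : 2 * K / ε < n := by
      refine hn₀.trans_le ?_
      exact_mod_cast (by omega : n₀ ≤ n)
    rw [div_lt_iff₀ hε] at h5
    have h6 := Real.add_one_le_exp ((n : ℝ) * ε / 2)
    linarith
  have h5 : 1 ≤ Real.exp (n * ε / 2) * ((1 - Real.exp (-ε)) * (1 - r)) := by
    rw [hK, div_le_iff₀ hK0] at h4
    exact h4
  set A := Real.exp (-((n : ℝ) / 2 * Real.log ((n : ℝ) / 2))) * Real.Gamma ((n : ℝ) / 2 + 1) with hA
  have hA0 : 0 ≤ A := by positivity
  calc A = A * 1 := (mul_one _).symm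
    _ ≤ A * (Real.exp (n * ε / 2) * ((1 - Real.exp (-ε)) * (1 - r))) := by gcongr
    _ = (A * (1 - Real.exp (-ε))) * (Real.exp (n * ε / 2) * (1 - r)) := by ring
    _ ≤ Real.exp (n * (-(1 / 2)) + n * ε / 2) * (Real.exp (n * ε / 2) * (1 - r)) := by
        gcongr
    _ = Real.exp (n * (-(1 / 2) + ε)) * (1 - r) := by
        rw [← mul_assoc, ← Real.exp_add]; congr 2; ring
    _ ≤ Real.exp (n * (-(1 / 2) + ε)) * (1 - r ^ n) := by gcongr

end Pool.Agent.Q119.SL
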